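import Pool.Agent.Q84.MB.B13

set_option autoImplicit false

namespace Pool.Agent.Results.MP_991e92_nt.AlmostAllSmallBases

open Finset

/-- The set `A` of integers does not contain `K` multiplicatively independent elements. -/
def RkZ (K : ℕ) (A : Set ℤ) : Prop :=
  ∀ b : Fin K → ℤ, (∀ j, b j ∈ A) → ¬ ∀ e : Fin K → ℤ, ∏ j, (b j : ℚ) ^ e j = 1 → ∀ j, e j = 0

/-- The integers `n ≠ 0`, `|n| ≤ H`, that are quadratic nonresidues but not primitive roots modulo `p` are
contained in `K` sets without `K` multiplicatively independent elements. -/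
def Few (K H p : ℕ) : Prop := ∃ S : Fin K → Set ℤ, (∀ i, RkZ K (S i)) ∧
  ∀ n : ℤ, n ≠ 0 → n.natAbs ≤ H → ¬ IsSquare (n : ZMod p) → (∀ i, n ∉ S i) →
    orderOf (n : ZMod p) = p - 1

/-- At most `K` of the prime numbers `q ≤ H` are quadratic nonresidues but not primitive roots
modulo `p`. -/
def FewPrimes (K H p : ℕ) : Prop :=
  Set.encard {q : ℕ | q.Prime ∧ q ≤ H ∧ jacobiSym q p = -1 ∧ orderOf (q : ZMod p) ≠ p - 1} ≤ K

open Classical in
/-- There are absolute constants `K` and `c > 0` with the following properties.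

(1) For every `ε > 0` there is `δ > 0` such that for all large `x` at least `x ^ (1 - ε)` primes `p ≤ x` have
the following property: all but at most `(log x) ^ (99 / 100)` of the primes `q ≤ δ log x` are primitive roots
modulo `p`, and all but at most `K` of the prime quadratic nonresidues `q ≤ x ^ c` are primitive roots
modulo `p`.

(2) For every `ε > 0` there is `δ > 0` such that for all large `x` there is a set `S` of at most
`(log x) ^ (49 / 50)` primes, all but at most one of them `≥ (log log x) ^ 2`, such that for every homomorphism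
`s` from the nonzero rational numbers to `{1, -1}` with `s (-3) = -1` at least `x ^ (1 - ε)` primes `p ≤ x`
have the following property: the quadratic symbol modulo `p` of every integer `n ≠ 0` all of whose prime factors
are `≤ δ log x` and outside `S` is `s n`, and the integers `n ≠ 0`, `|n| ≤ x ^ c`, which are quadratic
nonresidues but not primitive roots modulo `p`, are contained in `K` sets without `K` multiplicatively
independent elements.

(3) For every `B`, all large `x`, every homomorphism `s` from the nonzero rational numbers to `{1, -1}` with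
`s (-3) = -1` and every `y` with `8 ∏_{q ≤ y} q ≤ (log x) ^ B` at least `x / (log x) ^ (B + 3)` primes
`p ≤ x` have the following property: the quadratic symbol modulo `p` of every integer `n ≠ 0`, `|n| ≤ y`, is
`s n`, and the integers `n ≠ 0`, `|n| ≤ x ^ c`, which are quadratic nonresidues but not primitive roots
modulo `p`, are contained in `K` sets without `K` multiplicatively independent elements. -/
theorem result : ∃ (K : ℕ) (c : ℝ), 0 < c ∧
    (∀ ε : ℝ, 0 < ε → ∃ δ : ℝ, 0 < δ ∧ ∃ x₀ : ℕ, ∀ x : ℕ, x₀ ≤ x →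
      (x : ℝ) ^ (1 - ε) ≤ (((Icc 1 x).filter (fun p => p.Prime ∧
        (((Icc 1 ⌊δ * Real.log x⌋₊).filter (fun q : ℕ => q.Prime ∧ orderOf (q : ZMod p) ≠ p - 1)).card : ℝ) ≤
          (Real.log x) ^ (99 / 100 : ℝ) ∧
        FewPrimes K ⌊(x : ℝ) ^ c⌋₊ p)).card : ℝ)) ∧
    (∀ ε : ℝ, 0 < ε → ∃ δ : ℝ, 0 < δ ∧ ∃ x₀ : ℕ, ∀ x : ℕ, x₀ ≤ x → ∃ S : Finset ℕ,
      (∀ q ∈ S, q.Prime) ∧ (S.card : ℝ) ≤ (Real.log x) ^ (49 / 50 : ℝ) ∧
      (∃ r : ℕ, ∀ q ∈ S, q ≠ r → (Real.log (Real.log x)) ^ 2 ≤ (q : ℝ)) ∧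
      ∀ s : ℚˣ →* ℤˣ, (∀ u : ℚˣ, (u : ℚ) = -3 → s u = -1) →
      (x : ℝ) ^ (1 - ε) ≤ (((Icc 1 x).filter (fun p => p.Prime ∧
        (∀ (n : ℤ) (u : ℚˣ), (∀ q : ℕ, q.Prime → q ∣ n.natAbs → (q : ℝ) ≤ δ * Real.log x ∧ q ∉ S) →
          (u : ℚ) = n → jacobiSym n p = ((s u : ℤˣ) : ℤ)) ∧
        Few K ⌊(x : ℝ) ^ c⌋₊ p)).card : ℝ)) ∧
    (∀ B : ℕ, ∃ x₀ : ℕ, ∀ x : ℕ, x₀ ≤ x → ∀ s : ℚˣ →* ℤˣ, (∀ u : ℚˣ, (u : ℚ) = -3 → s u = -1) →
      ∀ y : ℕ, ((8 * primorial y : ℕ) : ℝ) ≤ (Real.log x) ^ B →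
      (x : ℝ) / (Real.log x) ^ (B + 3) ≤ (((Icc 1 x).filter (fun p => p.Prime ∧
        (∀ (n : ℤ) (u : ℚˣ), n.natAbs ≤ y → (u : ℚ) = n → jacobiSym n p = ((s u : ℤˣ) : ℤ)) ∧
        Few K ⌊(x : ℝ) ^ c⌋₊ p)).card : ℝ)) :=
  Pool.Agent.Q84.MB.final

end Pool.Agent.Results.MP_991e92_nt.AlmostAllSmallBases
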