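import Pool.Agent.Q251.AF.Main
import Pool.Agent.H74R5.Pos

set_option autoImplicit false

/-! # The corrected density of Q1 for the bases `D a² m ^ k`, where `m` arises from an arbitrary integer by
changing a few of its digits

Let `D ≠ 1` be a squarefree integer, `D ≡ 1 mod 4`; every integer with squarefree part `D` is of the form
`D a²`.  Let `r` be an odd squarefree number, write `P r n x` for the number of primes `p ≤ x` with
`gcd (p - 1, r) = 1` modulo which `n` is a primitive root (`r = 1`: all primes), and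

`δ D r = (1 - μ(|D|) ∏_{q ∣ D, q ∣ r} 1 / (q - 2) ∏_{q ∣ D, q ∤ r} 1 / (q² - q - 1)) c_r`,
`c_r = ∏_{l ∣ r} (1 - 1 / (l - 1)) ∏_{l ∤ r} (1 - 1 / (l (l - 1)))`;

`δ D 1` is the density of Q1.

Take ANY integer `0 ≤ N < b ^ K` and prescribe for every position a digit different from the digit of `N`
in base `b`.  If `s ≤ K / 2` of the `K` positions are chosen and the digits of `N` at these positions are
replaced, then for all but at most a proportion `y ^ (-A)` of the choices the number `m` obtained has the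
following property: for EVERY `x` with `y ≤ x ≤ exp (κ s)`, every `a ≠ 0` with `|a| ≤ x ^ A` and every
even `k ≤ x ^ A` all of whose odd prime factors divide `r` (`k = 2, 4, 8, …` if `r = 1`) one has
`|P r (D a² m ^ k) x - δ D r π(x)| ≤ ε π(x)`.  So the family may be as thin as `K choose s` integers with
`s` of the order `log x`, in particular of size `(log m) ^ O(log x)`, around an arbitrary centre `N`. -/

namespace Pool.Agent.Results.MP_991e92_nt.FewDigitBases

open Finset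

/-- the number of primes `p ≤ x` with `gcd (p - 1, r) = 1` modulo which `n` is a primitive root -/
noncomputable def P (r : ℕ) (n : ℤ) (x : ℕ) : ℕ :=
  ((Finset.range (x + 1)).filter (fun p : ℕ => p.Prime ∧ Nat.Coprime (p - 1) r ∧
    orderOf (n : ZMod p) = p - 1)).card

/-- `∏_{l ∣ r} (1 - 1 / (l - 1)) ∏_{l ∤ r} (1 - 1 / (l (l - 1)))` -/
noncomputable def c (r : ℕ) : ℝ :=
  (∏ l ∈ r.primeFactors, (1 - 1 / ((l : ℝ) - 1))) *
    ∏' p : Nat.Primes, (if (p : ℕ) ∣ r then 1 else 1 - 1 / (((p : ℕ) : ℝ) * (((p : ℕ) : ℝ) - 1)))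

/-- the density, with its correction factor -/
noncomputable def δ (D : ℤ) (r : ℕ) : ℝ :=
  (1 - ((ArithmeticFunction.moebius D.natAbs : ℤ) : ℝ) * ∏ q ∈ D.natAbs.primeFactors,
    (if q ∣ r then 1 / ((q : ℝ) - 2) else 1 / ((q : ℝ) ^ 2 - (q : ℝ) - 1))) * c r

/-- For every `x` with `y ≤ x ≤ X`, every `a ≠ 0` with `|a| ≤ x ^ A` and every even `k`, `1 ≤ k ≤ x ^ A`,
all of whose odd prime factors divide `r`: `|P r (D a² m ^ k) x - δ D r π(x)| ≤ ε π(x)`. -/
def Holds (D : ℤ) (r A : ℕ) (ε : ℝ) (y : ℕ) (X : ℝ) (m : ℕ) : Prop :=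
  ∀ x : ℕ, y ≤ x → (x : ℝ) ≤ X → ∀ a : ℤ, a ≠ 0 → |a| ≤ (x : ℤ) ^ A →
    ∀ k : ℕ, 1 ≤ k → k ≤ x ^ A → 2 ∣ k → (∀ l : ℕ, l.Prime → l ∣ k → l ≠ 2 → l ∣ r) →
      |(P r (D * a ^ 2 * (m : ℤ) ^ k) x : ℝ) - δ D r * (Nat.primeCounting x : ℝ)| ≤
        ε * (Nat.primeCounting x : ℝ)

/-- The digit number `i` (counted from the right, beginning with `0`) of `n` in base `b`. -/
def digit (b i n : ℕ) : ℕ := n / b ^ i % b

/-- The number which arises from the number `N` with at most `K` digits in base `b`, if for every `i ∈ S`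
the digit number `i` is replaced by `f i`. -/
def change (b K N : ℕ) (f : ℕ → ℕ) (S : Finset ℕ) : ℕ :=
  ∑ i ∈ range K, (if i ∈ S then f i else digit b i N) * b ^ i

open Classical in
/-- **Theorem.** See the comment at the beginning of the file. -/
theorem result (b : ℕ) (hb : 2 ≤ b) (A : ℕ) : ∃ κ : ℝ, 0 < κ ∧
    ∀ D : ℤ, Squarefree D → D % 4 = 1 → D ≠ 1 → ∀ r : ℕ, Squarefree r → Odd r →
    0 < δ D r ∧ ∀ ε : ℝ, 0 < ε → ∃ y₀ : ℕ, ∀ s K y : ℕ, 2 * s ≤ K → y₀ ≤ y →
    ∀ N : ℕ, N < b ^ K → ∀ f : ℕ → ℕ, (∀ j, f j < b ∧ f j ≠ digit b j N) →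
      (((powersetCard s (range K)).filter
        (fun S => ¬ Holds D r A ε y (Real.exp (κ * s)) (change b K N f S))).card : ℝ) ≤
      1 / (y : ℝ) ^ A * (K.choose s : ℝ) := by
  obtain ⟨κ, hκ, h⟩ := Pool.Agent.Q251.AF.main b hb A
  refine ⟨κ, hκ, fun D hD h4 hD1 r hr hro => ⟨Pool.Agent.H74R5.cstD_pos D hD h4 hD1 r
    (Pool.Agent.H74R5.cst_pos r hro), fun ε hε => ?_⟩⟩
  obtain ⟨y₀, h⟩ := h D hD h4 hD1 r hr hro ε hε
  refine ⟨y₀, fun s K y hsK hy N hN f hf => le_trans (Nat.cast_le.2 (card_le_card ?_))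
    (h s K y hsK hy N hN f hf)⟩
  intro S hS
  rw [mem_filter] at hS ⊢
  refine ⟨hS.1, ?_⟩
  have h2 := hS.2
  unfold Holds at h2
  push Not at h2
  obtain ⟨x, hyx, hxX, a, ha, haA, k, hk1, hkA, hk2, hkr, hlt⟩ := h2
  refine ⟨x, hyx, hxX, a, k, ha, haA, hk1, hkA, hk2, hkr, ?_⟩
  have e : P r (D * a ^ 2 * ((change b K N f S : ℕ) : ℤ) ^ k) x = ((range (x + 1)).filter (fun p : ℕ => p.Prime ∧
      Nat.Coprime (p - 1) r ∧ orderOf ((D * a ^ 2 * ((Pool.Agent.TH894.SM.change b K N f S : ℕ) : ℤ) ^ k : ℤ) : ZMod p) =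
        p - 1)).card := by
    unfold P
    apply congrArg Finset.card
    ext p
    simp only [mem_filter]
    rfl
  rw [← e]
  exact hlt

end Pool.Agent.Results.MP_991e92_nt.FewDigitBases
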