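import Pool.Agent.Q145.ART.Fin

set_option autoImplicit false
set_option maxHeartbeats 4000000

/-!
# Artin's conjecture for almost all long tuples from arbitrary sets, up to the natural barrier

For `n` numbers `a_1, ..., a_n` prescribe that `a_i` is a primitive root modulo `p`, or that
`(a_i/p) = 1`, or that `(a_i/p) = -1`.  The number of primes `p ≤ x` with all these properties is
`(1 + O((log x)^{-A})) M(x)`, `M(x) = ∑_{p ≤ x} 2^{-(n-k)} (φ(p-1)/p)^k` (`k` primitive roots are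
prescribed), for ALL `x ∈ [x₀, x₁]` simultaneously, for almost all `a ∈ E_1 × ... × E_n`.  Here `n`
grows up to the natural barrier: `2^n ≤ x₀^{1-δ}`, while `M(x) ≤ 2^{-n} x`; the numbers are small:
`a_i ≤ N`, `log N ≥ C √(log x₁ log log x₁)`; and the `E_i` are ANY sets of at least
`N min(N, x₀)^{-κ}` integers in `[1, N]`.
-/

namespace Pool.Agent.Results.MP_991e92_nt.LongTuplesAnySets

open Finset

open scoped Classical

/-- `a` has type `t` modulo `p`: it is a primitive root modulo `p` if `t = 0`; its Legendre symbol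
modulo `p` is `t` if `t = 1` or `t = -1`. -/
def HasType (p : ℕ) (t : ℤ) (a : ℕ) : Prop :=
  if t = 0 then orderOf (a : ZMod p) = p - 1 else jacobiSym a p = t

/-- The primes `p ≤ x`. -/
def primesUpTo (x : ℕ) : Finset ℕ := (range (x + 1)).filter Nat.Prime

/-- The number of primes `p ≤ x` modulo which every `a_i` has type `t_i`. -/
noncomputable def count {n : ℕ} (t : Fin n → ℤ) (a : Fin n → ℕ) (x : ℕ) : ℕ :=
  ((primesUpTo x).filter fun p => ∀ i, HasType p (t i) (a i)).card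

/-- The expected number: the sum over the primes `p ≤ x` of the product of the factors
`φ(p-1)/p` (for `t_i = 0`) and `1/2` (for `t_i = 1, -1`). -/
noncomputable def expected {n : ℕ} (t : Fin n → ℤ) (x : ℕ) : ℝ :=
  ∑ p ∈ primesUpTo x, ∏ i, if t i = 0 then (Nat.totient (p - 1) : ℝ) / (p : ℝ) else 1 / 2

/-- The tuples `a ∈ E_1 × ... × E_n` with the property `P`. -/
noncomputable def those {n : ℕ} (E : Fin n → Finset ℕ) (P : (Fin n → ℕ) → Prop) : Finset (Fin n → ℕ) :=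
  (Fintype.piFinset E).filter P

open Pool.Agent.Q145.ART

theorem num_count {n : ℕ} (t : Fin n → ℤ) (a : Fin n → ℕ) (x : ℕ) : ((count t a x : ℕ) : ℝ) = cnt t a x := by
  unfold count cnt
  rw [num_eq, card_filter]
  push_cast
  rfl

theorem main_expected {n : ℕ} (t : Fin n → ℤ) (x : ℕ) : expected t x = main t x := rfl

theorem card_those {n : ℕ} (E : Fin n → Finset ℕ) (P : (Fin n → ℕ) → Prop) : ((those E P).card : ℝ) = num (Fintype.piFinset E) P := by
  unfold those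
  rw [num_eq, card_filter]
  push_cast
  rfl

/-- **Theorem.** (1) The asymptotic formula for all `x ∈ [x₀, x₁]`, for almost all tuples from
arbitrary sets.  (2) The least prime modulo which every `a_i` has type `t_i` is at most
`2^{(1+ε)n}` for almost all tuples from arbitrary sets.  (3) It is larger than `2^{(1-ε)n}` for
almost all `a ∈ [1, N]^n`, `N ≥ 4^n`. -/
theorem result :
    (∀ A δ : ℝ, 0 < A → 0 < δ → δ ≤ 1 → ∃ C κ : ℝ, 0 < κ ∧
      ∀ (x₀ x₁ N n : ℕ) (E : Fin n → Finset ℕ) (t : Fin n → ℤ), C ≤ x₀ →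
        C * Real.sqrt (Real.log x₁ * Real.log (Real.log x₁)) ≤ Real.log N →
        (n : ℝ) * Real.log 2 ≤ (1 - δ) * Real.log x₀ →
        (∀ i, E i ⊆ Icc 1 N) → (∀ i, (N : ℝ) ≤ (E i).card * ((min N x₀ : ℕ) : ℝ) ^ κ) →
        (∀ i, t i = 0 ∨ t i = 1 ∨ t i = -1) →
        ((those E fun a => ∃ x : ℕ, x₀ ≤ x ∧ x ≤ x₁ ∧
          expected t x / (Real.log x) ^ A < |(count t a x : ℝ) - expected t x|).card : ℝ) ≤
            (∏ i, ((E i).card : ℝ)) / (Real.log x₀) ^ A) ∧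
    (∀ ε : ℝ, 0 < ε → ε < 1 → ∃ C κ : ℝ, 0 < κ ∧
      ∀ (n N : ℕ) (t : Fin n → ℤ), C ≤ n → (∀ i, t i = 0 ∨ t i = 1 ∨ t i = -1) →
        (∀ E : Fin n → Finset ℕ, C * Real.sqrt ((n : ℝ) * Real.log n) ≤ Real.log N →
          (∀ i, E i ⊆ Icc 1 N) → (∀ i, (N : ℝ) ≤ (E i).card * ((min N (2 ^ n) : ℕ) : ℝ) ^ κ) →
          ((those E fun a => ¬ ∃ p : ℕ, p.Prime ∧ (p : ℝ) ≤ (2 : ℝ) ^ ((1 + ε) * (n : ℝ)) ∧
            ∀ i, HasType p (t i) (a i)).card : ℝ) ≤ ε * ∏ i, ((E i).card : ℝ)) ∧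
        (4 ^ n ≤ N → ((those (fun _ : Fin n => Icc 1 N) fun a => ∃ p : ℕ, p.Prime ∧
          (p : ℝ) ≤ (2 : ℝ) ^ ((1 - ε) * (n : ℝ)) ∧ ∀ i, HasType p (t i) (a i)).card : ℝ) ≤
            ε * (N : ℝ) ^ n)) := by
  simp only [card_those, num_count, main_expected]
  refine ⟨?_, ?_⟩
  · intro A δ hA hδ hδ1
    obtain ⟨C, κ, hκ, -, h⟩ := all' A δ hA hδ hδ1
    exact ⟨C, κ, hκ, h⟩
  · intro ε hε hε1
    exact Pool.Agent.Q124.ART.t_COR Pool.Agent.Q238.ART.t_SV t_LOW all' Pool.Agent.Q124.ART.t_SHP ε hε hε1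

end Pool.Agent.Results.MP_991e92_nt.LongTuplesAnySets
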