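import Pool.Agent.Q84.AR6

set_option autoImplicit false

namespace Pool.Agent.Results.MP_991e92_nt.SimultaneousPrimitiveRoots

/-- The group `G` of rational numbers does not contain `K` multiplicatively independent elements. -/
def RankLt (K : ℕ) (G : Subgroup ℚˣ) : Prop :=
  ∀ b : Fin K → ℚˣ, (∀ j, b j ∈ G) → ¬ ∀ e : Fin K → ℤ, ∏ j, b j ^ e j = 1 → ∀ j, e j = 0

/-- For every `k` there is `D` such that there are infinitely many arithmetic progressions
`a, a + d, ..., a + (k - 1) d` of primes, with common difference `d ≤ (log a) ^ D`, such that all the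
elements of `F` are primitive roots modulo all the `k` primes. -/
def Prog (F : Finset ℤ) : Prop :=
  ∀ k : ℕ, ∃ D : ℕ, ∀ A : ℕ, ∃ a d : ℕ, A ≤ a ∧ 0 < d ∧ (d : ℝ) ≤ Real.log a ^ D ∧
    ∀ j < k, (a + j * d).Prime ∧ ∀ n ∈ F, orderOf ((n : ℤ) : ZMod (a + j * d)) = a + j * d - 1

/-- There is an absolute constant `K` with the following two properties.

For every homomorphism `s` from the group of nonzero rational numbers to `{1, -1}` with `s (-3) = -1`
there are `K` groups of rational numbers, each without `K` multiplicatively independent elements, such that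
every finite set `F` of integers `n` with `s n = -1` outside these groups has the property `Prog`.

In every set `M` of pairwise coprime integers, none a perfect square and none `-1`, there are at most `K ^ 2`
elements outside which every finite subset has the property `Prog`. -/
theorem result : ∃ K : ℕ,
    (∀ s : ℚˣ →* ℤˣ, (∀ u : ℚˣ, (u : ℚ) = -3 → s u = -1) →
      ∃ G : Fin K → Subgroup ℚˣ, (∀ i, RankLt K (G i)) ∧
        ∀ F : Finset ℤ, (∀ n ∈ F, ∃ u : ℚˣ, (u : ℚ) = n ∧ s u = -1 ∧ ∀ i, u ∉ G i) → Prog F) ∧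
    ∀ M : Set ℤ, (∀ n ∈ M, n ≠ -1 ∧ ¬ IsSquare n) → (∀ m ∈ M, ∀ n ∈ M, m ≠ n → IsCoprime m n) →
      ∃ E ⊆ M, E.encard ≤ K ^ 2 ∧ ∀ F : Finset ℤ, (F : Set ℤ) ⊆ M \ E → Prog F :=
  Pool.Agent.Q84.AR.main2

end Pool.Agent.Results.MP_991e92_nt.SimultaneousPrimitiveRoots
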